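import Pool.Agent.J4H32.MV.S2

set_option autoImplicit false

/-!
# Project MV of helper32, job B2 (helper45)
-/

namespace Pool.Agent.J4H45.MV

open Finset
open Pool.Agent.J4H32.MV

theorem crt_sum {q P : ℕ} (hq : q ≠ 0) (hP : P ≠ 0) (co : q.Coprime P) {a b : ℕ → ℝ}
    (ha : ∀ s, a (s + q) = a s) (hb : ∀ s, b (s + P) = b s) :
    ∑ s ∈ range (q * P), a s * b s = (∑ s ∈ range q, a s) * ∑ s ∈ range P, b s := by
  rw [sum_mul_sum, ← sum_product']
  have pa : Function.Periodic a q := ha
  have pb : Function.Periodic b P := hb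
  refine Finset.sum_nbij' (fun s => (s % q, s % P))
    (fun t => (Nat.chineseRemainder co t.1 t.2 : ℕ)) ?_ ?_ ?_ ?_ ?_
  · intro s _
    rw [mem_product, mem_range, mem_range]
    exact ⟨Nat.mod_lt _ (Nat.pos_of_ne_zero hq), Nat.mod_lt _ (Nat.pos_of_ne_zero hP)⟩
  · intro t _
    rw [mem_range]
    exact Nat.chineseRemainder_lt_mul co t.1 t.2 hq hP
  · intro s hs
    rw [mem_range] at hs
    have h1 : s ≡ s % q [MOD q] := (Nat.mod_modEq s q).symm
    have h2 : s ≡ s % P [MOD P] := (Nat.mod_modEq s P).symm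
    have h3 := Nat.chineseRemainder_modEq_unique co h1 h2
    exact (Nat.ModEq.eq_of_lt_of_lt h3 hs (Nat.chineseRemainder_lt_mul co _ _ hq hP)).symm
  · rintro ⟨u, v⟩ ht
    rw [mem_product, mem_range, mem_range] at ht
    have h := (Nat.chineseRemainder co u v).2
    have h1 : (Nat.chineseRemainder co u v : ℕ) % q = u := by
      have := h.1
      unfold Nat.ModEq at this
      rw [this, Nat.mod_eq_of_lt ht.1]
    have h2 : (Nat.chineseRemainder co u v : ℕ) % P = v := by
      have := h.2
      unfold Nat.ModEq at this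
      rw [this, Nat.mod_eq_of_lt ht.2]
    simp only [h1, h2]
  · intro s _
    simp only
    rw [pa.map_mod_nat, pb.map_mod_nat]

/-- **Job B2.** -/
theorem t_CR : S_CR := by
  classical
  intro S
  induction S using Finset.induction_on with
  | empty =>
    intro φ _ _
    simp
  | insert q S hq ih =>
    intro φ hp hφ
    have h1 : ∀ p ∈ S, p.Prime := fun p h => hp p (mem_insert_of_mem h)
    have h2 : ∀ p ∈ S, ∀ s, φ p (s + p) = φ p s := fun p h => hφ p (mem_insert_of_mem h)
    have hqp := hp q (mem_insert_self _ _)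
    have hP0 : (∏ p ∈ S, p) ≠ 0 := prod_ne_zero_iff.2 fun p h => (h1 p h).ne_zero
    have co : q.Coprime (∏ p ∈ S, p) := by
      apply Nat.Coprime.prod_right
      intro p h
      refine (Nat.coprime_primes hqp (h1 p h)).2 ?_
      rintro rfl
      exact hq h
    have hb : ∀ s, ∏ p ∈ S, φ p (s + ∏ p ∈ S, p) = ∏ p ∈ S, φ p s := by
      intro s
      apply prod_congr rfl
      intro p h
      have hper : Function.Periodic (φ p) p := h2 p h
      obtain ⟨k, hk⟩ := Finset.dvd_prod_of_mem (fun p => p) h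
      rw [hk, mul_comm]
      exact hper.nat_mul k s
    have e1 : ∀ s, ∏ p ∈ insert q S, φ p s = φ q s * ∏ p ∈ S, φ p s := fun s => prod_insert hq
    rw [prod_insert hq, prod_insert hq, ← ih φ h1 h2]
    rw [sum_congr rfl fun s _ => e1 s, crt_sum hqp.ne_zero hP0 co (hφ q (mem_insert_self _ _)) hb]
    push_cast
    rw [mul_div_mul_comm]

end Pool.Agent.J4H45.MV
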