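import Pool.Agent.J4H32.MV.S2

set_option autoImplicit false

/-!
# Project MV of helper32, job B3 (helper45): local means
-/

namespace Pool.Agent.J4H45.MV

open Finset
open Pool.Agent.J4H32.MV

/-- exactly one class is hit -/
theorem hit_card {p W : ℕ} (hp : p.Prime) (hW : ¬ p ∣ W) (c : ℕ) :
    ((range p).filter (fun s => (p : ℤ) ∣ ((c + W * s : ℕ) : ℤ))).card = 1 := by
  have hco : W.Coprime p := ((Nat.Prime.coprime_iff_not_dvd hp).2 hW).symm
  obtain ⟨k, -, hk⟩ := Nat.exists_mul_mod_eq_one_of_coprime hco hp.one_lt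
  rw [card_eq_one]
  have hinj : ∀ s < p, ∀ t < p, p ∣ c + W * s → p ∣ c + W * t → s ≤ t → s = t := by
    intro s hs t ht h1 h2 hst
    have h3 : p ∣ (c + W * t) - (c + W * s) := Nat.dvd_sub h2 h1
    have h4 : (c + W * t) - (c + W * s) = W * (t - s) := by
      rw [Nat.add_sub_add_left, ← Nat.mul_sub]
    rw [h4] at h3
    have h5 := (Nat.Prime.dvd_mul hp).1 h3
    rcases h5 with h5 | h5
    · exact absurd h5 hW
    · have := Nat.eq_zero_of_dvd_of_lt h5 (by omega)
      omega
  -- existence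
  obtain ⟨s, hs, hd⟩ : ∃ s < p, p ∣ c + W * s := by
    refine ⟨(k * (p * c - c)) % p, Nat.mod_lt _ hp.pos, ?_⟩
    have hcp : c ≤ p * c := Nat.le_mul_of_pos_left _ hp.pos
    have h1 : W * ((k * (p * c - c)) % p) ≡ (p * c - c) [MOD p] := by
      calc W * ((k * (p * c - c)) % p) ≡ W * (k * (p * c - c)) [MOD p] :=
            (Nat.mod_modEq _ _).mul_left _
        _ = (W * k) * (p * c - c) := by ring
        _ ≡ 1 * (p * c - c) [MOD p] := by
            apply Nat.ModEq.mul_right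
            have : 1 % p = 1 := Nat.mod_eq_of_lt hp.one_lt
            unfold Nat.ModEq
            rw [this]
            exact hk
        _ = p * c - c := one_mul _
    have h2 : c + W * ((k * (p * c - c)) % p) ≡ c + (p * c - c) [MOD p] := h1.add_left c
    have h3 : c + (p * c - c) = p * c := by omega
    rw [h3] at h2
    exact (Nat.modEq_zero_iff_dvd).1 (h2.trans (Nat.modEq_zero_iff_dvd.2 (dvd_mul_right p c)))
  refine ⟨s, ?_⟩
  ext t
  rw [mem_filter, mem_range, mem_singleton]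
  constructor
  · rintro ⟨ht, hd'⟩
    have hd'' : p ∣ c + W * t := by exact_mod_cast hd'
    rcases le_total t s with h | h
    · exact hinj t ht s hs hd'' hd h
    · exact (hinj s hs t ht hd hd'' h).symm
  · rintro rfl
    exact ⟨hs, by exact_mod_cast hd⟩

theorem lf_abs_le {p : ℕ} (hp : p.Prime) (n : ℤ) : |lf p n| ≤ 1 := by
  unfold lf
  have h2 : (2 : ℝ) ≤ p := by exact_mod_cast hp.two_le
  split_ifs
  · simp
  · rw [abs_of_nonneg (by apply div_nonneg <;> linarith), div_le_one (by linarith)]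
    linarith

theorem lf_no {p : ℕ} {n : ℤ} (h : ¬ (p : ℤ) ∣ n) : lf p n = 1 / ((p : ℝ) - 1) := by
  unfold lf
  rw [if_neg h]

theorem lf_yes {p : ℕ} {n : ℤ} (h : (p : ℤ) ∣ n) : lf p n = -1 := by
  unfold lf
  rw [if_pos h]

/-- **Job B3.** -/
theorem t_LM : S_LM := by
  classical
  intro J W p C S hp hW
  have h2 : (2 : ℝ) ≤ p := by exact_mod_cast hp.two_le
  have hp0 : (0 : ℝ) < p := by linarith
  have hp1 : (0 : ℝ) < (p : ℝ) - 1 := by linarith
  have hp1' : (1 : ℝ) / ((p : ℝ) - 1) ≤ 1 := by rw [div_le_one hp1]; linarith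
  have hpi : (0 : ℝ) ≤ 1 / ((p : ℝ) - 1) := by positivity
  have hSJ : (S.card : ℝ) ≤ J := by
    have := Finset.card_le_univ S
    rw [Fintype.card_fin] at this
    exact_mod_cast this
  -- the `s` with a hit
  let Hs : Finset ℕ := (range p).filter (fun s => ∃ j ∈ S, (p : ℤ) ∣ ((C j + W * s : ℕ) : ℤ))
  have hHs : (Hs.card : ℝ) ≤ J := by
    have h1 : Hs ⊆ S.biUnion (fun j => (range p).filter (fun s => (p : ℤ) ∣ ((C j + W * s : ℕ) : ℤ))) := by
      intro s hs
      obtain ⟨h3, j, hj, hd⟩ := mem_filter.1 hs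
      exact mem_biUnion.2 ⟨j, hj, mem_filter.2 ⟨h3, hd⟩⟩
    have h3 := (card_le_card h1).trans card_biUnion_le
    rw [sum_congr rfl fun j _ => hit_card hp hW (C j), sum_const, smul_eq_mul, mul_one] at h3
    have : (Hs.card : ℝ) ≤ S.card := by exact_mod_cast h3
    linarith
  -- general bound
  have hgen : ∀ B : ℝ, 0 ≤ B → 2 ≤ S.card → (∀ s ∈ Hs, |∏ j ∈ S, lf p ((C j + W * s : ℕ) : ℤ)| ≤ B) →
      |∑ s ∈ range p, ∏ j ∈ S, lf p ((C j + W * s : ℕ) : ℤ)| ≤ J * B + p * (1 / ((p : ℝ) - 1)) ^ 2 := by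
    intro B hB hS hb
    refine (abs_sum_le_sum_abs _ _).trans ?_
    have h4 : ∀ s ∈ range p, |∏ j ∈ S, lf p ((C j + W * s : ℕ) : ℤ)| ≤
        (if s ∈ Hs then B else 0) + (1 / ((p : ℝ) - 1)) ^ 2 := by
      intro s hs
      by_cases hsH : s ∈ Hs
      · rw [if_pos hsH]
        have := hb s hsH
        have : 0 ≤ (1 / ((p : ℝ) - 1)) ^ 2 := by positivity
        linarith
      · rw [if_neg hsH, zero_add]
        have h5 : ∀ j ∈ S, ¬ (p : ℤ) ∣ ((C j + W * s : ℕ) : ℤ) :=
          fun j hj hd => hsH (mem_filter.2 ⟨hs, j, hj, hd⟩)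
        rw [prod_congr rfl fun j hj => lf_no (h5 j hj), prod_const, abs_of_nonneg (by positivity)]
        exact pow_le_pow_of_le_one hpi hp1' hS
    refine (sum_le_sum h4).trans ?_
    rw [sum_add_distrib, sum_const, card_range, nsmul_eq_mul, ← sum_filter]
    have h6 : (range p).filter (fun s => s ∈ Hs) = Hs := by
      ext s
      rw [mem_filter]
      exact ⟨fun h => h.2, fun h => ⟨(mem_filter.1 h).1, h⟩⟩
    rw [h6, sum_const, nsmul_eq_mul]
    have := mul_le_mul_of_nonneg_right hHs hB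
    linarith
  have hpp : (p : ℝ) * (1 / ((p : ℝ) - 1)) ^ 2 ≤ 2 := by
    rw [div_pow, one_pow, mul_one_div, div_le_iff₀ (by positivity)]
    nlinarith
  refine ⟨?_, ?_, ?_⟩
  · intro hS
    obtain ⟨j, rfl⟩ := card_eq_one.1 hS
    unfold ml
    simp only [prod_singleton]
    have h3 : ∑ s ∈ range p, lf p ((C j + W * s : ℕ) : ℤ) = 0 := by
      rw [← sum_filter_add_sum_filter_not (range p) (fun s => (p : ℤ) ∣ ((C j + W * s : ℕ) : ℤ))]
      rw [sum_congr rfl fun s hs => lf_yes (mem_filter.1 hs).2,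
        sum_congr rfl fun s hs => lf_no (mem_filter.1 hs).2, sum_const, sum_const,
        hit_card hp hW (C j)]
      have h4 : ((range p).filter (fun s => ¬ (p : ℤ) ∣ ((C j + W * s : ℕ) : ℤ))).card = p - 1 := by
        have h5 := card_filter_add_card_filter_not (s := range p)
          (p := fun s => (p : ℤ) ∣ ((C j + W * s : ℕ) : ℤ))
        rw [hit_card hp hW (C j), card_range] at h5
        omega
      rw [h4, one_smul, nsmul_eq_mul, Nat.cast_sub hp.one_lt.le, Nat.cast_one]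
      field_simp
      ring
    rw [h3, zero_div]
  · intro hS
    unfold ml
    rw [abs_div, abs_of_pos hp0]
    apply div_le_div_of_nonneg_right _ hp0.le
    have h3 := hgen 1 zero_le_one hS (fun s _ => by
      rw [abs_prod]
      exact prod_le_one (fun _ _ => abs_nonneg _) fun j _ => lf_abs_le hp _)
    linarith
  · intro hS hdis
    unfold ml
    rw [abs_div, abs_of_pos hp0]
    have h3 := hgen (1 / ((p : ℝ) - 1)) hpi hS (by
      intro s hs
      obtain ⟨h4, j, hj, hd⟩ := mem_filter.1 hs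
      rw [← mul_prod_erase S _ hj, abs_mul, lf_yes hd, abs_neg, abs_one, one_mul]
      have h5 : ∀ i ∈ S.erase j, ¬ (p : ℤ) ∣ ((C i + W * s : ℕ) : ℤ) := by
        intro i hi hd'
        rw [mem_erase] at hi
        refine hdis i hi.2 j hj hi.1 ?_
        have := dvd_sub hd' hd
        have e : ((C i + W * s : ℕ) : ℤ) - ((C j + W * s : ℕ) : ℤ) = (C i : ℤ) - C j := by
          push_cast; ring
        rwa [e] at this
      rw [prod_congr rfl fun i hi => lf_no (h5 i hi), prod_const, abs_of_nonneg (by positivity),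
        card_erase_of_mem hj]
      calc (1 / ((p : ℝ) - 1)) ^ (S.card - 1) ≤ (1 / ((p : ℝ) - 1)) ^ 1 :=
            pow_le_pow_of_le_one hpi hp1' (by omega)
        _ = 1 / ((p : ℝ) - 1) := pow_one _)
    have h6 : |∑ s ∈ range p, ∏ j ∈ S, lf p ((C j + W * s : ℕ) : ℤ)| / p ≤
        (J * (1 / ((p : ℝ) - 1)) + p * (1 / ((p : ℝ) - 1)) ^ 2) / p :=
      div_le_div_of_nonneg_right h3 hp0.le
    refine h6.trans ?_
    have hJ : (0 : ℝ) ≤ J := by positivity
    rw [div_le_div_iff₀ hp0 (by positivity)]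
    have e : (J * (1 / ((p : ℝ) - 1)) + p * (1 / ((p : ℝ) - 1)) ^ 2) * ((p : ℝ) - 1) ^ 2 =
        J * ((p : ℝ) - 1) + p := by
      field_simp
    rw [e]
    nlinarith

end Pool.Agent.J4H45.MV
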