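import Pool.Agent.J4H32.MV.S2

set_option autoImplicit false

/-!
# Project MV of helper32, job B4 (helper45): correlations of the model in terms of the local means
-/

namespace Pool.Agent.J4H45.MV

open Finset
open Pool.Agent.J4H32.MV
open Pool.Agent.J4H81.PT (GG TV TV_nonneg hq QQ mem_QQ)

section

variable {W Q J : ℕ}

/-- the primes -/
def PP (W Q : ℕ) : Finset ℕ := (range (Q + 1)).filter (fun p => p.Prime ∧ ¬ p ∣ W)

theorem mem_PP {p : ℕ} : p ∈ PP W Q ↔ p ≤ Q ∧ p.Prime ∧ ¬ p ∣ W := by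
  unfold PP
  rw [mem_filter, mem_range, Nat.lt_succ_iff]

/-- the numbers `j` with `p ∣ q j` -/
def Sp (q : Fin J → ℕ) (p : ℕ) : Finset (Fin J) := univ.filter (fun j => p ∣ q j)

/-- the primes which divide one of the `q j` -/
def Pq (W Q : ℕ) (q : Fin J → ℕ) : Finset ℕ := (PP W Q).filter (fun p => (Sp q p).Nonempty)

theorem primeFactors_eq {n : ℕ} (hn : n ∈ QQ W Q) :
    n.primeFactors = (PP W Q).filter (fun p => p ∣ n) := by
  obtain ⟨⟨h1, h2⟩, h3, h4⟩ := mem_QQ.1 hn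
  ext p
  rw [Nat.mem_primeFactors, mem_filter, mem_PP]
  constructor
  · rintro ⟨hp, hd, h0⟩
    refine ⟨⟨(Nat.le_of_dvd (by omega) hd).trans h2, hp, fun hW => ?_⟩, hd⟩
    have := Nat.dvd_gcd hd hW
    rw [h4.gcd_eq_one] at this
    exact hp.one_lt.ne' (Nat.dvd_one.1 this)
  · rintro ⟨⟨-, hp, -⟩, hd⟩
    exact ⟨hp, hd, by omega⟩

/-- the product of the local factors, ordered by primes -/
theorem prod_hq {q : Fin J → ℕ} (hq' : ∀ j, q j ∈ QQ W Q) (n : Fin J → ℤ) :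
    ∏ j, hq (q j) (n j) = ∏ p ∈ PP W Q, ∏ j ∈ Sp q p, lf p (n j) := by
  have h1 : ∀ j, hq (q j) (n j) = ∏ p ∈ PP W Q, (if p ∣ q j then lf p (n j) else 1) := by
    intro j
    rw [← prod_filter, ← primeFactors_eq (hq' j)]
    rfl
  rw [prod_congr rfl fun j _ => h1 j, prod_comm]
  apply prod_congr rfl
  intro p _
  unfold Sp
  rw [prod_filter]

theorem prod_Pq {q : Fin J → ℕ} (n : Fin J → ℤ) :
    ∏ p ∈ PP W Q, ∏ j ∈ Sp q p, lf p (n j) = ∏ p ∈ Pq W Q q, ∏ j ∈ Sp q p, lf p (n j) := by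
  unfold Pq
  rw [prod_filter]
  apply prod_congr rfl
  intro p _
  split_ifs with h
  · rfl
  · rw [not_nonempty_iff_eq_empty.1 h, prod_empty]

theorem ml_empty {p : ℕ} (hp : p.Prime) (C : Fin J → ℕ) : ml W p C ∅ = 1 := by
  unfold ml
  have : (p : ℝ) ≠ 0 := by exact_mod_cast hp.ne_zero
  simp only [prod_empty, sum_const, card_range, nsmul_eq_mul, mul_one]
  exact div_self this

theorem prod_ml {q : Fin J → ℕ} (C : Fin J → ℕ) :
    ∏ p ∈ Pq W Q q, ml W p C (Sp q p) = ∏ p ∈ PP W Q, ml W p C (Sp q p) := by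
  unfold Pq
  rw [prod_filter]
  apply prod_congr rfl
  intro p hp
  split_ifs with h
  · rfl
  · rw [not_nonempty_iff_eq_empty.1 h, ml_empty (mem_PP.1 hp).2.1]

/-- the period -/
theorem period_le {q : Fin J → ℕ} (hq' : ∀ j, q j ∈ QQ W Q) :
    ∏ p ∈ Pq W Q q, p ≤ Q ^ J := by
  have h1 : ∏ p ∈ Pq W Q q, p ∣ ∏ j, q j := by
    apply Finset.prod_primes_dvd
    · intro p hp
      exact ((mem_PP.1 (mem_filter.1 hp).1).2.1).prime
    · intro p hp
      obtain ⟨j, hj⟩ := (mem_filter.1 hp).2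
      exact dvd_trans (mem_filter.1 hj).2 (Finset.dvd_prod_of_mem q (mem_univ j))
  have h2 : 0 < ∏ j, q j := prod_pos fun j _ => (mem_QQ.1 (hq' j)).1.1
  have h3 : ∏ j, q j ≤ Q ^ J := by
    have := Finset.prod_le_pow_card (univ : Finset (Fin J)) q Q fun j _ => (mem_QQ.1 (hq' j)).1.2
    rwa [card_univ, Fintype.card_fin] at this
  exact (Nat.le_of_dvd h2 h1).trans h3

theorem lf_periodic (p : ℕ) (c W : ℕ) (s : ℕ) :
    lf p ((c + W * (s + p) : ℕ) : ℤ) = lf p ((c + W * s : ℕ) : ℤ) := by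
  unfold lf
  have : (p : ℤ) ∣ ((c + W * (s + p) : ℕ) : ℤ) ↔ (p : ℤ) ∣ ((c + W * s : ℕ) : ℤ) := by
    rw [Int.natCast_dvd_natCast, Int.natCast_dvd_natCast]
    have e : c + W * (s + p) = c + W * s + W * p := by ring
    rw [e]
    exact (Nat.dvd_add_left (dvd_mul_left p W))
  exact if_congr this rfl rfl

theorem lf_abs_le' {p : ℕ} (hp : p.Prime) (n : ℤ) : |lf p n| ≤ 1 := by
  unfold lf
  have h2 : (2 : ℝ) ≤ p := by exact_mod_cast hp.two_le
  split_ifs
  · simp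
  · rw [abs_of_nonneg (by apply div_nonneg <;> linarith), div_le_one (by linarith)]
    linarith

/-- the tuple can be read off from the sets -/
theorem q_inj {q q' : Fin J → ℕ} (hq1 : ∀ j, q j ∈ QQ W Q) (hq2 : ∀ j, q' j ∈ QQ W Q)
    (h : ∀ p ∈ PP W Q, Sp q p = Sp q' p) : q = q' := by
  funext j
  have h1 : (q j).primeFactors = (q' j).primeFactors := by
    rw [primeFactors_eq (hq1 j), primeFactors_eq (hq2 j)]
    apply filter_congr
    intro p hp
    have h2 : j ∈ Sp q p ↔ j ∈ Sp q' p := by rw [h p hp]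
    unfold Sp at h2
    rw [mem_filter, mem_filter] at h2
    simpa using h2
  rw [← Nat.prod_primeFactors_of_squarefree (mem_QQ.1 (hq1 j)).2.1, h1,
    Nat.prod_primeFactors_of_squarefree (mem_QQ.1 (hq2 j)).2.1]

/-- the sum of the absolute values of the means -/
theorem sum_means (C : Fin J → ℕ) (x : ℕ → ℝ)
    (hx : ∀ p : ℕ, p.Prime → p ≤ Q → ¬ p ∣ W →
      ∑ S ∈ (univ : Finset (Finset (Fin J))).filter (fun S => S.Nonempty), |ml W p C S| ≤ x p) :
    ∑ q ∈ Fintype.piFinset (fun _ : Fin J => QQ W Q), ∏ p ∈ PP W Q, |ml W p C (Sp q p)| ≤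
      ∏ p ∈ PP W Q, (1 + x p) := by
  classical
  have h1 : ∏ p ∈ PP W Q, ∑ S : Finset (Fin J), |ml W p C S| ≤ ∏ p ∈ PP W Q, (1 + x p) := by
    apply prod_le_prod
    · intro p _
      exact sum_nonneg fun _ _ => abs_nonneg _
    · intro p hp
      obtain ⟨h2, h3, h4⟩ := mem_PP.1 hp
      rw [← sum_filter_add_sum_filter_not univ (fun S : Finset (Fin J) => S.Nonempty)]
      have h5 : (univ : Finset (Finset (Fin J))).filter (fun S => ¬ S.Nonempty) = {∅} := by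
        ext S
        rw [mem_filter, mem_singleton, not_nonempty_iff_eq_empty]
        simp
      rw [h5, sum_singleton, ml_empty h3, abs_one]
      have := hx p h3 h2 h4
      linarith
  refine le_trans ?_ h1
  rw [← prod_coe_sort (PP W Q) (fun p => ∑ S : Finset (Fin J), |ml W p C S|), prod_univ_sum]
  let F : (Fin J → ℕ) → ({p // p ∈ PP W Q} → Finset (Fin J)) := fun q p => Sp q p
  have hinj : Set.InjOn F (Fintype.piFinset (fun _ : Fin J => QQ W Q) : Set (Fin J → ℕ)) := by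
    intro q hq1 q' hq2 h
    rw [mem_coe, Fintype.mem_piFinset] at hq1 hq2
    apply q_inj hq1 hq2
    intro p hp
    exact congrFun h ⟨p, hp⟩
  have e1 : ∀ q : Fin J → ℕ, ∏ p ∈ PP W Q, |ml W p C (Sp q p)| =
      ∏ p : {p // p ∈ PP W Q}, |ml W p C (F q p)| := by
    intro q
    rw [← prod_coe_sort]
  rw [sum_congr rfl fun q _ => e1 q, ← sum_image (g := F)
    (f := fun f => ∏ p : {p // p ∈ PP W Q}, |ml W p C (f p)|) hinj]
  apply sum_le_sum_of_subset_of_nonneg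
  · intro f _
    rw [Fintype.mem_piFinset]
    exact fun _ => mem_univ _
  · intro f _ _
    exact prod_nonneg fun _ _ => abs_nonneg _

end

/-- **Job B4.** -/
theorem t_MC (hPV : S_PV) (hCR : S_CR) : S_MC := by
  classical
  intro W Q J T C V x hQ hVT hV hx0 hx
  set B := Fintype.piFinset (fun _ : Fin J => QQ W Q) with hB
  set Φ : (Fin J → ℕ) → ℕ → ℝ := fun q s => ∏ j, hq (q j) ((C j + W * s : ℕ) : ℤ) with hΦ
  set v := ∑ s ∈ range T, V s with hv
  have hv0 : 0 ≤ v := sum_nonneg fun s _ => hV s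
  have hmem : ∀ q ∈ B, ∀ j, q j ∈ QQ W Q := fun q hq j => Fintype.mem_piFinset.1 hq j
  have hΦp : ∀ q ∈ B, ∀ s, Φ q s = ∏ p ∈ Pq W Q q, ∏ j ∈ Sp q p, lf p ((C j + W * s : ℕ) : ℤ) := by
    intro q hq s
    rw [hΦ]
    simp only
    rw [prod_hq (hmem q hq) (fun j => ((C j + W * s : ℕ) : ℤ)), prod_Pq]
  -- expansion
  have e1 : ∑ s ∈ range T, V s * ∏ j, GG W Q ((C j + W * s : ℕ) : ℤ) =
      ∑ q ∈ B, ∑ s ∈ range T, V s * Φ q s := by
    rw [sum_comm]
    apply sum_congr rfl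
    intro s _
    rw [← mul_sum]
    congr 1
    unfold GG
    rw [prod_univ_sum]
  -- the primes of a tuple
  have hprime : ∀ q : Fin J → ℕ, ∀ p ∈ Pq W Q q, p.Prime :=
    fun q p hp => (mem_PP.1 (mem_filter.1 hp).1).2.1
  -- each tuple
  have hq1 : ∀ q ∈ B, |∑ s ∈ range T, V s * Φ q s - (∏ p ∈ PP W Q, ml W p C (Sp q p)) * v| ≤
      2 * (Q : ℝ) ^ J * TV V T := by
    intro q hq
    obtain ⟨L, hL⟩ : ∃ L : ℕ, L = ∏ p ∈ Pq W Q q, p := ⟨_, rfl⟩
    have hL1 : 1 ≤ L := by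
      rw [hL]
      exact Nat.one_le_iff_ne_zero.2 (prod_ne_zero_iff.2 fun p hp => (hprime q p hp).ne_zero)
    have hper : ∀ p ∈ Pq W Q q, ∀ s, ∏ j ∈ Sp q p, lf p ((C j + W * (s + p) : ℕ) : ℤ) =
        ∏ j ∈ Sp q p, lf p ((C j + W * s : ℕ) : ℤ) :=
      fun p _ s => prod_congr rfl fun j _ => lf_periodic p (C j) W s
    have h1 := hPV L T (Φ q) V hL1 (by
      intro s
      rw [hΦp q hq, hΦp q hq]
      apply prod_congr rfl
      intro p hp
      have hP : Function.Periodic (fun s => ∏ j ∈ Sp q p, lf p ((C j + W * s : ℕ) : ℤ)) p := hper p hp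
      obtain ⟨k, hk⟩ := Finset.dvd_prod_of_mem (fun p => p) hp
      rw [hL, hk, mul_comm p k]
      exact hP.nat_mul k s) (by
      intro s
      rw [hΦp q hq, abs_prod]
      apply prod_le_one (fun _ _ => abs_nonneg _)
      intro p hp
      rw [abs_prod]
      exact prod_le_one (fun _ _ => abs_nonneg _) fun j _ => lf_abs_le' (hprime q p hp) _) hVT
    have h2 := hCR (Pq W Q q) (fun p s => ∏ j ∈ Sp q p, lf p ((C j + W * s : ℕ) : ℤ)) (hprime q) hper
    have h3 : (∑ s ∈ range L, Φ q s) / L = ∏ p ∈ PP W Q, ml W p C (Sp q p) := by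
      rw [sum_congr rfl fun s _ => hΦp q hq s, hL, h2, ← prod_ml]
      rfl
    rw [h3] at h1
    refine h1.trans ?_
    apply mul_le_mul_of_nonneg_right _ (TV_nonneg _ _)
    apply mul_le_mul_of_nonneg_left _ (by norm_num)
    have h4 := period_le (W := W) (hmem q hq)
    rw [← hL] at h4
    exact_mod_cast h4
  -- the trivial tuple
  obtain ⟨q0, hq0⟩ : ∃ q0 : Fin J → ℕ, q0 = fun _ => 1 := ⟨_, rfl⟩
  have hq0B : q0 ∈ B := by
    rw [hB, Fintype.mem_piFinset]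
    intro j
    rw [hq0, mem_QQ]
    exact ⟨⟨le_rfl, hQ⟩, squarefree_one, Nat.coprime_one_left W⟩
  have hm0 : ∏ p ∈ PP W Q, ml W p C (Sp q0 p) = 1 := by
    apply prod_eq_one
    intro p hp
    have : Sp q0 p = ∅ := by
      unfold Sp
      rw [filter_eq_empty_iff]
      intro j _ hd
      rw [hq0] at hd
      exact (mem_PP.1 hp).2.1.one_lt.ne' (Nat.dvd_one.1 hd)
    rw [this, ml_empty (mem_PP.1 hp).2.1]
  -- the sum of the means
  have hsm := sum_means (W := W) (Q := Q) C x hx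
  rw [← hB] at hsm
  have hcard : (B.card : ℝ) ≤ (Q : ℝ) ^ J := by
    have h1 : B.card ≤ Q ^ J := by
      rw [hB, Fintype.card_piFinset, prod_const, card_univ, Fintype.card_fin]
      apply Nat.pow_le_pow_left
      unfold QQ
      refine (card_filter_le _ _).trans ?_
      rw [Nat.card_Icc]
      omega
    exact_mod_cast h1
  have hA : |∑ q ∈ B, ∑ s ∈ range T, V s * Φ q s -
      ∑ q ∈ B, (∏ p ∈ PP W Q, ml W p C (Sp q p)) * v| ≤ 2 * (Q : ℝ) ^ (2 * J) * TV V T := by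
    rw [← sum_sub_distrib]
    refine (abs_sum_le_sum_abs _ _).trans ((sum_le_sum hq1).trans ?_)
    rw [sum_const, nsmul_eq_mul]
    have e : 2 * (Q : ℝ) ^ (2 * J) * TV V T = (Q : ℝ) ^ J * (2 * (Q : ℝ) ^ J * TV V T) := by
      rw [two_mul J, pow_add]
      ring
    rw [e]
    exact mul_le_mul_of_nonneg_right hcard (by have := TV_nonneg V T; positivity)
  have hB2 : |∑ q ∈ B, (∏ p ∈ PP W Q, ml W p C (Sp q p)) * v - v| ≤
      (∏ p ∈ PP W Q, (1 + x p) - 1) * v := by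
    rw [← add_sum_erase B _ hq0B, hm0, one_mul, add_sub_cancel_left, ← sum_mul, abs_mul,
      abs_of_nonneg hv0]
    apply mul_le_mul_of_nonneg_right _ hv0
    have h1 : |∑ q ∈ B.erase q0, ∏ p ∈ PP W Q, ml W p C (Sp q p)| ≤
        ∑ q ∈ B.erase q0, ∏ p ∈ PP W Q, |ml W p C (Sp q p)| := by
      refine (abs_sum_le_sum_abs _ _).trans (le_of_eq ?_)
      apply sum_congr rfl
      intro q _
      rw [abs_prod]
    have h2 : ∑ q ∈ B, ∏ p ∈ PP W Q, |ml W p C (Sp q p)| =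
        1 + ∑ q ∈ B.erase q0, ∏ p ∈ PP W Q, |ml W p C (Sp q p)| := by
      rw [← add_sum_erase B _ hq0B, ← abs_prod, hm0, abs_one]
    linarith
  rw [e1]
  have h9 := abs_sub_le (∑ q ∈ B, ∑ s ∈ range T, V s * Φ q s)
    (∑ q ∈ B, (∏ p ∈ PP W Q, ml W p C (Sp q p)) * v) v
  change |∑ q ∈ B, ∑ s ∈ range T, V s * Φ q s - v| ≤ (∏ p ∈ PP W Q, (1 + x p) - 1) * v +
    2 * (Q : ℝ) ^ (2 * J) * TV V T
  linarith

end Pool.Agent.J4H45.MV
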